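import Pool.Agent.helper95.T6.SpecE

set_option autoImplicit false

/-! Row EPL of project T6L: the lower bound for one pair. -/

namespace Pool.Agent.T6

open Finset Pool.Agent.helper3.FT Pool.Agent.T5

theorem EPL_e_add (a b : ℝ) : e (a + b) = e a * e b := by
  unfold e
  rw [← Complex.exp_add]
  congr 1
  push_cast
  ring

theorem EPL_e_norm (a : ℝ) : ‖e a‖ = 1 := by
  unfold e
  have h : 2 * (Real.pi : ℂ) * Complex.I * a = ((2 * Real.pi * a : ℝ) : ℂ) * Complex.I := by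
    push_cast
    ring
  rw [h]
  exact Complex.norm_exp_ofReal_mul_I _

theorem EPL_tw_nonneg (L : ℕ) (m : ℤ) : 0 ≤ tw L m := le_max_left _ _

theorem EPL_tw_le {L : ℕ} (hL : 1 ≤ L) (m : ℤ) : tw L m ≤ 3 := by
  have hL' : (1 : ℝ) ≤ L := by exact_mod_cast hL
  unfold tw
  refine max_le (by norm_num) ?_
  rw [div_le_iff₀ (by linarith)]
  have := abs_nonneg (m : ℝ)
  linarith

theorem EPL_tw_ge {L : ℕ} (hL : 1 ≤ L) {m : ℤ} (hm : |(m : ℝ)| ≤ L) : 1 ≤ tw L m := by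
  have hL' : (1 : ℝ) ≤ L := by exact_mod_cast hL
  unfold tw
  refine le_trans ?_ (le_max_right _ _)
  rw [le_div_iff₀ (by linarith)]
  linarith

theorem EPL_sum1 {L : ℕ} (hL : 1 ≤ L) : (L : ℝ) ≤ ∑ m ∈ Icc (-(2 * L : ℤ)) (2 * L), tw L m := by
  have h1 : ∑ m ∈ Icc (1 : ℤ) L, (1 : ℝ) ≤ ∑ m ∈ Icc (1 : ℤ) L, tw L m := by
    refine sum_le_sum fun m hm => EPL_tw_ge hL ?_
    rw [mem_Icc] at hm
    rw [abs_of_nonneg (by exact_mod_cast (by omega : (0 : ℤ) ≤ m))]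
    exact_mod_cast hm.2
  have h2 : ∑ m ∈ Icc (1 : ℤ) L, tw L m ≤ ∑ m ∈ Icc (-(2 * L : ℤ)) (2 * L), tw L m := by
    refine sum_le_sum_of_subset_of_nonneg ?_ fun i _ _ => EPL_tw_nonneg _ _
    intro m hm
    rw [mem_Icc] at hm ⊢
    constructor <;> omega
  have h3 : ∑ m ∈ Icc (1 : ℤ) L, (1 : ℝ) = L := by
    rw [sum_const, nsmul_one, Int.card_Icc]
    simp
  linarith

/-- the sum of the weights -/
theorem EPL_sum {L L' : ℕ} (hL : 1 ≤ L) (hL' : 1 ≤ L') :
    (L : ℝ) * L' ≤ ∑ i ∈ Icc (-(2 * L : ℤ)) (2 * L) ×ˢ Icc (-(2 * L' : ℤ)) (2 * L'), tw L i.1 * tw L' i.2 := by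
  rw [sum_product, ← sum_mul_sum]
  have h1 := EPL_sum1 hL
  have h2 := EPL_sum1 hL'
  exact mul_le_mul h1 h2 (by positivity) (by have : (0 : ℝ) ≤ L := by positivity
                                             linarith)

theorem EPL (hECB : ECB_stmt) (hEMI : EMI_stmt) (hWWY : WWY_stmt) : EPL_stmt := by
  classical
  obtain ⟨C₀, hC₀, hW⟩ := hWWY
  refine ⟨36 + √C₀, by have := Real.sqrt_nonneg C₀; linarith, ?_⟩
  intro n k d hn hk hd hnk hdn hdk
  obtain ⟨α, β, γ, hres, c₃, c₄, c₅, hcb⟩ := hECB n k d hn hk hd hnk hdn hdk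
  refine ⟨(α, β, γ), ⟨α, β, γ, hres, by simp, by simp, by simp⟩, ?_⟩
  intro L L' T z₀ V F hL hL' hT hV hTV hVQ hF
  choose z₁ hz₁ hz₂ using hcb
  have hn0 : (0 : ℝ) < n := by exact_mod_cast hn
  have hk0 : (0 : ℝ) < k := by exact_mod_cast hk
  have hd0 : (0 : ℝ) < d := by exact_mod_cast hd
  have hd1 : (1 : ℝ) ≤ d := by exact_mod_cast hd
  have hT0 : (0 : ℝ) < T := by exact_mod_cast hT
  set Q : ℝ := (n : ℝ) ^ 3 * k * d with hQ
  have hQ0 : 0 < Q := by positivity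
  -- the index set
  set s := Icc (-(2 * L : ℤ)) (2 * L) ×ˢ Icc (-(2 * L' : ℤ)) (2 * L') with hs
  set X : ℤ × ℤ → ℝ := fun i => (d : ℝ) / ((n : ℝ) ^ 3 * k) * (α * i.1 ^ 2 + β * i.1 * i.2 + γ * i.2 ^ 2) +
    c₃ * i.1 + c₄ * i.2 + c₅ - (z₀ + V / 2) / Q with hX
  set w : ℤ × ℤ → ℝ := fun i => tw L i.1 * tw L' i.2 with hw
  have hw0 : ∀ i, 0 ≤ w i := fun i => mul_nonneg (EPL_tw_nonneg _ _) (EPL_tw_nonneg _ _)
  have hw9 : ∀ i, w i ≤ 9 := by
    intro i
    calc tw L i.1 * tw L' i.2 ≤ 3 * 3 :=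
          mul_le_mul (EPL_tw_le hL _) (EPL_tw_le hL' _) (EPL_tw_nonneg _ _) (by norm_num)
      _ = 9 := by norm_num
  have hXz : ∀ i, X i = ((z₁ i.1 i.2 : ℝ) - z₀ - V / 2) / Q := by
    intro i
    have h1 : ((z₁ i.1 i.2 : ℝ) - z₀ - V / 2) / Q = (z₁ i.1 i.2 : ℝ) / Q - (z₀ + V / 2) / Q := by ring
    rw [h1, hz₁ i.1 i.2]
  -- the tuples
  set tt : ℤ × ℤ → Tpl := fun i => ((n, k), (d * i.1, 1 + d * i.2,
    z₁ i.1 i.2 + (n : ℤ) ^ 3 * k * d * (-round (X i)))) with htt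
  have hl : 0 < V / (2 * Q) := by positivity
  have hl2 : V / (2 * Q) ≤ 1 / 2 := by
    rw [div_le_div_iff₀ (by positivity) (by norm_num)]
    linarith
  have hl5 : 5 ≤ T * (V / (2 * Q)) := by
    rw [← mul_div_assoc, le_div_iff₀ (by positivity)]
    linarith
  have harc : ∑ i ∈ s.filter (fun i => nd (X i) ≤ V / (2 * Q) / 2), w i ≤ 9 * (F.card : ℝ) := by
    refine (sum_le_card_nsmul _ _ _ fun i _ => hw9 i).trans ?_
    rw [nsmul_eq_mul, mul_comm]
    refine mul_le_mul_of_nonneg_left ?_ (by norm_num)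
    have hc : (s.filter (fun i => nd (X i) ≤ V / (2 * Q) / 2)).card ≤ F.card := by
      apply card_le_card_of_injOn tt
      · intro i hi
        rw [mem_coe, mem_filter, hs, mem_product, mem_Icc, mem_Icc] at hi
        obtain ⟨⟨⟨a1, a2⟩, a3, a4⟩, hi2⟩ := hi
        obtain ⟨t1, t2⟩ := hz₂ i.1 i.2 (-round (X i))
        rw [mem_coe]
        have b1 : |X i - round (X i)| ≤ V / (4 * Q) := by
          have h1 : nd (X i) = |X i - round (X i)| := rfl
          rw [← h1]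
          refine hi2.trans (le_of_eq ?_)
          field_simp
          norm_num
        have b2 : |(z₁ i.1 i.2 : ℝ) - Q * (round (X i) : ℝ) - z₀ - V / 2| ≤ V / 4 := by
          have h1 : (z₁ i.1 i.2 : ℝ) - Q * (round (X i) : ℝ) - z₀ - V / 2 = Q * (X i - round (X i)) := by
            have h2 := hXz i
            rw [eq_div_iff hQ0.ne'] at h2
            linarith
          rw [h1, abs_mul, abs_of_pos hQ0]
          calc Q * |X i - round (X i)| ≤ Q * (V / (4 * Q)) := mul_le_mul_of_nonneg_left b1 hQ0.le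
            _ = V / 4 := by field_simp
        rw [abs_le] at b2
        have b3 : (((tt i).2.2.2 : ℤ) : ℝ) = (z₁ i.1 i.2 : ℝ) - Q * (round (X i) : ℝ) := by
          show ((z₁ i.1 i.2 + (n : ℤ) ^ 3 * k * d * (-round (X i)) : ℤ) : ℝ) = _
          rw [hQ]
          push_cast
          ring
        refine hF (tt i) t1 rfl t2 ?_ ?_ ?_ ?_
        · show |(((d : ℤ) * i.1 : ℤ) : ℝ)| ≤ d * (2 * L : ℝ)
          push_cast
          rw [abs_mul, abs_of_pos hd0]
          refine mul_le_mul_of_nonneg_left ?_ hd0.le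
          rw [abs_le]
          constructor
          · exact_mod_cast a1
          · exact_mod_cast a2
        · show |((1 + (d : ℤ) * i.2 : ℤ) : ℝ)| ≤ d * (2 * L' + 1 : ℝ)
          push_cast
          have h1 : |(i.2 : ℝ)| ≤ 2 * L' := by
            rw [abs_le]
            constructor
            · exact_mod_cast a3
            · exact_mod_cast a4
          calc |1 + (d : ℝ) * i.2| ≤ |(1 : ℝ)| + |(d : ℝ) * i.2| := abs_add_le _ _
            _ = 1 + d * |(i.2 : ℝ)| := by rw [abs_one, abs_mul, abs_of_pos hd0]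
            _ ≤ 1 + d * (2 * L') := by
              have := mul_le_mul_of_nonneg_left h1 hd0.le
              linarith
            _ ≤ d * (2 * L' + 1 : ℝ) := by linarith
        · rw [b3]
          linarith
        · rw [b3]
          linarith
      · intro i _ i' _ hii
        have h1 : (d : ℤ) * i.1 = d * i'.1 := congrArg (fun t : Tpl => t.2.1) hii
        have h2 : 1 + (d : ℤ) * i.2 = 1 + d * i'.2 := congrArg (fun t : Tpl => t.2.2.1) hii
        have hdz : (d : ℤ) ≠ 0 := by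
          have : d ≠ 0 := by omega
          exact_mod_cast this
        refine Prod.ext (mul_left_cancel₀ hdz h1) (mul_left_cancel₀ hdz ?_)
        linarith
    exact_mod_cast hc
  have hemi := hEMI s w X T (V / (2 * Q)) hl hl2 hl5 (fun i _ => hw0 i)
  -- the exponential sums
  have hts : ∀ h : ℕ, ‖∑ i ∈ s, (w i : ℂ) * e (h * X i)‖ ≤ √C₀ * (√((L : ℝ) * L') *
      √((nearPts L L' ((h * d : ℕ) * α / ((n : ℝ) ^ 3 * k)) ((h * d : ℕ) * β / ((n : ℝ) ^ 3 * k))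
          ((h * d : ℕ) * γ / ((n : ℝ) ^ 3 * k))).card : ℝ)) := by
    intro h
    set c : Fin 5 → ℝ := ![((h * d : ℕ) : ℝ) * α / ((n : ℝ) ^ 3 * k),
      ((h * d : ℕ) : ℝ) * β / ((n : ℝ) ^ 3 * k), ((h * d : ℕ) : ℝ) * γ / ((n : ℝ) ^ 3 * k),
      h * c₃, h * c₄] with hc
    have hc0 : c 0 = ((h * d : ℕ) : ℝ) * α / ((n : ℝ) ^ 3 * k) := rfl
    have hc1 : c 1 = ((h * d : ℕ) : ℝ) * β / ((n : ℝ) ^ 3 * k) := rfl
    have hc2 : c 2 = ((h * d : ℕ) : ℝ) * γ / ((n : ℝ) ^ 3 * k) := rfl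
    have hc3 : c 3 = h * c₃ := rfl
    have hc4 : c 4 = h * c₄ := rfl
    have h1 : ∑ i ∈ s, (w i : ℂ) * e (h * X i) = TS L L' c * e (h * (c₅ - (z₀ + V / 2) / Q)) := by
      unfold TS
      rw [hs, sum_product, sum_mul]
      refine sum_congr rfl fun m _ => ?_
      rw [sum_mul]
      refine sum_congr rfl fun g _ => ?_
      have h2 : (h : ℝ) * X (m, g) = (c 0 * m ^ 2 + c 1 * m * g + c 2 * g ^ 2 + c 3 * m + c 4 * g) +
          h * (c₅ - (z₀ + V / 2) / Q) := by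
        rw [hc0, hc1, hc2, hc3, hc4]
        simp only [hX]
        push_cast
        ring
      rw [h2, EPL_e_add]
      simp only [hw]
      ring
    rw [h1, norm_mul, EPL_e_norm, mul_one]
    have h3 := hW L L' c hL hL'
    rw [hc0, hc1, hc2] at h3
    have hLL : (0 : ℝ) ≤ (L : ℝ) * L' := by positivity
    refine abs_le_of_sq_le_sq' ?_ (by positivity) |>.2
    rw [mul_pow, mul_pow, Real.sq_sqrt (by linarith), Real.sq_sqrt hLL, Real.sq_sqrt (by positivity)]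
    refine h3.trans (le_of_eq ?_)
    ring
  have hsum := EPL_sum hL hL'
  have hNS : NS L L' T d n k (α, β, γ) = ∑ h ∈ Ico 1 T, √((nearPts L L' ((h * d : ℕ) * α / ((n : ℝ) ^ 3 * k))
      ((h * d : ℕ) * β / ((n : ℝ) ^ 3 * k)) ((h * d : ℕ) * γ / ((n : ℝ) ^ 3 * k))).card : ℝ) := rfl
  have h1 : ∑ h ∈ Ico 1 T, ‖∑ i ∈ s, (w i : ℂ) * e (h * X i)‖ ≤ √C₀ * (√((L : ℝ) * L') *
      NS L L' T d n k (α, β, γ)) := by
    rw [hNS, mul_sum, mul_sum]
    exact sum_le_sum fun h _ => hts h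
  set S := NS L L' T d n k (α, β, γ) with hS
  have hS0 : 0 ≤ S := sum_nonneg fun _ _ => Real.sqrt_nonneg _
  have h2 : 1 / (4 * T) * ((L : ℝ) * L') ≤ 9 * (F.card : ℝ) + 7 / T * (√C₀ * (√((L : ℝ) * L') * S)) := by
    have h3 : 1 / (4 * T) * ((L : ℝ) * L') ≤ 1 / (4 * T) * ∑ i ∈ s, w i :=
      mul_le_mul_of_nonneg_left hsum (by positivity)
    have h4 := mul_le_mul_of_nonneg_left h1 (by positivity : (0 : ℝ) ≤ 7 / T)
    linarith
  have hsq : 0 ≤ √C₀ := Real.sqrt_nonneg _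
  have h5 : (0 : ℝ) ≤ (L : ℝ) * L' := by positivity
  have h6 : (L : ℝ) * L' / ((36 + √C₀) * T) ≤ (L : ℝ) * L' / (36 * T) := by
    apply div_le_div_of_nonneg_left h5 (by positivity)
    nlinarith
  have h7 : (L : ℝ) * L' / (36 * T) = (1 / (4 * T) * ((L : ℝ) * L')) / 9 := by
    field_simp
    norm_num
  have h8 : 0 ≤ √((L : ℝ) * L') * S := mul_nonneg (Real.sqrt_nonneg _) hS0
  have h9 : 7 / T * (√C₀ * (√((L : ℝ) * L') * S)) ≤ 9 * ((36 + √C₀) / T * (√((L : ℝ) * L') * S)) := by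
    have e1 : 7 / T * (√C₀ * (√((L : ℝ) * L') * S)) = (7 * √C₀) * ((√((L : ℝ) * L') * S) / T) := by ring
    have e2 : 9 * ((36 + √C₀) / T * (√((L : ℝ) * L') * S)) = (9 * (36 + √C₀)) * ((√((L : ℝ) * L') * S) / T) := by ring
    rw [e1, e2]
    apply mul_le_mul_of_nonneg_right _ (by positivity)
    linarith
  linarith

end Pool.Agent.T6
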